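import Pool.Agent.Y148.OD.Stm

/-!
# Points of maximal transcendence degree are generic
-/

set_option autoImplicit false
set_option linter.all false

namespace Pool.Agent.Y125.OD

open MvPolynomial Pool.Agent.Y148.OD

theorem rk_anti {Ω : Type*} [Field Ω] {K L : Subfield Ω} (h : K ≤ L) (S : Set Ω) :
    rk L S ≤ rk K S := by
  unfold rk
  rw [Matroid.eRk_le_iff]
  intro I hIS hI
  refine Matroid.Indep.encard_le_eRk_of_subset ?_ hIS
  rw [AlgebraicIndependent.matroid_indep_iff] at hI ⊢
  letI : Algebra K L := (Subfield.inclusion h).toAlgebra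
  haveI : IsScalarTower K L Ω := IsScalarTower.of_algebraMap_eq fun x => rfl
  exact AlgebraicIndependent.restrictScalars (R := K) (K := L)
    (Subfield.inclusion h).injective hI

theorem countable_mv (K τ : Type) [Field K] [Countable K] [Finite τ] :
    Countable (MvPolynomial τ K) := by
  rw [← Cardinal.mk_le_aleph0_iff]
  refine MvPolynomial.cardinalMk_le_max.trans ?_
  simp [Cardinal.mk_le_aleph0]

theorem countable_sup {Ω : Type} [Field Ω] (K L : Subfield Ω) [Countable K] [Countable L] :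
    Countable (K ⊔ L : Subfield Ω) := by
  have h : K ⊔ L = Subfield.closure ((K : Set Ω) ∪ L) := by
    rw [Subfield.closure_union, Subfield.closure_eq, Subfield.closure_eq]
  rw [h, ← Cardinal.mk_le_aleph0_iff]
  refine (Subfield.cardinalMk_closure_le_max _).trans ?_
  have h1 : ((K : Set Ω) ∪ L).Countable :=
    (Set.countable_coe_iff.1 (inferInstanceAs (Countable K))).union
      (Set.countable_coe_iff.1 (inferInstanceAs (Countable L)))
  simp only [max_le_iff, le_refl, and_true]
  exact Cardinal.mk_le_aleph0_iff.2 h1.to_subtype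

theorem exists_frac (A : Type) [CommRing A] [Countable A] (I : Ideal A) [I.IsPrime] :
    ∃ (F : Type) (_ : Field F) (_ : Countable F) (π : A →+* F), ∀ a, π a = 0 ↔ a ∈ I := by
  haveI : Countable (A ⧸ I) := (Ideal.Quotient.mk_surjective (I := I)).countable
  haveI : Countable (FractionRing (A ⧸ I)) := by
    have h : Function.Surjective (fun p : (A ⧸ I) × nonZeroDivisors (A ⧸ I) =>
        IsLocalization.mk' (FractionRing (A ⧸ I)) p.1 p.2) := by
      intro z
      obtain ⟨x, y, hxy⟩ := IsLocalization.exists_mk'_eq (nonZeroDivisors (A ⧸ I)) z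
      exact ⟨(x, y), hxy⟩
    exact h.countable
  refine ⟨FractionRing (A ⧸ I), inferInstance, inferInstance,
    (algebraMap (A ⧸ I) (FractionRing (A ⧸ I))).comp (Ideal.Quotient.mk I), fun a => ?_⟩
  rw [RingHom.comp_apply, map_eq_zero_iff _ (IsFractionRing.injective (A ⧸ I) _),
    Ideal.Quotient.eq_zero_iff_mem]

section gen

variable {Ω : Type} [Field Ω] {τ : Type} (V : Set (τ → Ω)) (K : Subfield Ω)

/-- the ideal of the polynomials which vanish on `V` -/
def vid : Ideal (MvPolynomial τ K) where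
  carrier := {P | ∀ w ∈ V, aeval w P = 0}
  add_mem' := fun {P Q} hP hQ w hw => by rw [map_add, hP w hw, hQ w hw, add_zero]
  zero_mem' := fun w _ => map_zero _
  smul_mem' := fun P Q hQ w hw => by rw [smul_eq_mul, map_mul, hQ w hw, mul_zero]

theorem mem_vid {P : MvPolynomial τ K} : P ∈ vid V K ↔ ∀ w ∈ V, aeval w P = 0 := Iff.rfl

theorem vid_prime (hne : V.Nonempty)
    (hpr : ∀ P Q : MvPolynomial τ Ω, (∀ v ∈ V, eval v P * eval v Q = 0) →
      (∀ v ∈ V, eval v P = 0) ∨ (∀ v ∈ V, eval v Q = 0)) : (vid V K).IsPrime := by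
  have he : ∀ (w : τ → Ω) (P : MvPolynomial τ K),
      eval w (map (algebraMap K Ω) P) = aeval w P := by
    intro w P
    rw [MvPolynomial.eval_map, aeval_def]
  refine ⟨?_, ?_⟩
  · intro h
    obtain ⟨w, hw⟩ := hne
    have h1 : (1 : MvPolynomial τ K) ∈ vid V K := by rw [h]; trivial
    have h2 := h1 w hw
    rw [map_one] at h2
    exact one_ne_zero h2
  · intro P Q hPQ
    have h1 := hpr (map (algebraMap K Ω) P) (map (algebraMap K Ω) Q) (fun v hv => by
      rw [he, he, ← map_mul]
      exact hPQ v hv)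
    rcases h1 with h1 | h1
    · exact Or.inl fun w hw => by rw [← he]; exact h1 w hw
    · exact Or.inr fun w hw => by rw [← he]; exact h1 w hw

/-- the generic point -/
theorem exists_gen (h1 : StmHom) [IsAlgClosed Ω] [Uncountable Ω] [Finite τ] [Countable K]
    (hp : (vid V K).IsPrime) :
    ∃ ξ : τ → Ω, ∀ P : MvPolynomial τ K, aeval ξ P = 0 ↔ P ∈ vid V K := by
  haveI := hp
  haveI : Countable (MvPolynomial τ K) := countable_mv K τ
  obtain ⟨F, _, _, π, hπ⟩ := exists_frac (MvPolynomial τ K) (vid V K)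
  obtain ⟨h, hh⟩ := h1 Ω K F (π.comp C) K.subtype
  refine ⟨fun a => h (π (X a)), fun P => ?_⟩
  have e : aeval (fun a => h (π (X a))) P = h (π P) := by
    have e1 : (aeval (fun a => h (π (X a))) : MvPolynomial τ K →ₐ[K] Ω).toRingHom = h.comp π := by
      refine MvPolynomial.ringHom_ext (fun c => ?_) (fun a => ?_)
      · show aeval (fun a => h (π (X a))) (C c) = h (π (C c))
        rw [aeval_C]
        exact (RingHom.congr_fun hh c).symm
      · show aeval (fun a => h (π (X a))) (X a) = h (π (X a))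
        rw [aeval_X]
    exact RingHom.congr_fun e1 P
  rw [e, map_eq_zero_iff h h.injective, hπ]

end gen

theorem point_of : StmHom → StmGeneric → StmPoint := by
  intro h1 h3 Ω _ _ _ τ _ V M K hK hVS hne hpr hL
  obtain ⟨S, hS⟩ := hVS
  obtain ⟨L, hLc, hLrk⟩ := hL
  -- the bound over `K`
  have hbd : ∀ v ∈ V, rk K (Set.range v) ≤ M := by
    intro v hv
    haveI := countable_sup K L
    obtain ⟨v', hrel, hrk⟩ := h3 Ω τ K (K ⊔ L) le_sup_left inferInstance v
    have hv' : v' ∈ V := by
      obtain ⟨h5, h6⟩ := (hS v).1 hv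
      refine (hS v').2 ⟨?_, fun P hP => (hrel P).1 (h6 P hP)⟩
      rintro rfl
      apply h5
      funext a
      have h7 := (hrel (X a)).2 (by rw [aeval_X]; rfl)
      rwa [aeval_X] at h7
    rw [← hrk]
    exact (rk_anti le_sup_right _).trans (hLrk v' hv')
  refine ⟨hbd, fun v hv hMv P hPv => ?_⟩
  have hprime := vid_prime V K hne hpr
  obtain ⟨ξ, hξ⟩ := exists_gen V K h1 hprime
  have hξV : ξ ∈ V := by
    refine (hS ξ).2 ⟨?_, fun Q hQ => (hξ Q).2 fun w hw => ((hS w).1 hw).2 Q hQ⟩
    rintro rfl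
    obtain ⟨w, hw⟩ := hne
    apply ((hS w).1 hw).1
    funext a
    have h7 := (hξ (X a)).1 (by rw [aeval_X]; rfl) w hw
    rwa [aeval_X] at h7
  by_contra hPI
  have hPξ : aeval ξ P ≠ 0 := fun h => hPI ((hξ P).1 h)
  -- independent coordinates of `v`
  unfold rk at hMv
  obtain ⟨J, hJ, hJi, hJc⟩ := Matroid.le_eRk_iff.1 hMv
  obtain ⟨T, hT, hbij⟩ := Set.exists_subset_bijOn (v ⁻¹' J) v
  have himg : v '' (v ⁻¹' J) = J := Set.image_preimage_eq_of_subset hJ
  rw [himg] at hbij
  have hTv : AlgebraicIndependent K (fun a : T => v a) := by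
    have h5 : AlgebraicIndependent K (Subtype.val : J → Ω) := hJi
    exact h5.comp (fun a : T => ⟨v a, hbij.mapsTo a.2⟩) (fun a b hab =>
      Subtype.ext (hbij.injOn a.2 b.2 (congrArg Subtype.val hab)))
  have hTξ : AlgebraicIndependent K (fun a : T => ξ a) := by
    rw [algebraicIndependent_iff]
    intro p hp
    apply hTv.eq_zero_of_aeval_eq_zero
    have h5 : aeval ξ (rename (Subtype.val : T → τ) p) = 0 := by
      rw [aeval_rename]; exact hp
    have h6 := (hξ _).1 h5 v hv
    rwa [aeval_rename] at h6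
  set J' : Set Ω := Set.range (fun a : T => ξ a) with hJ'
  have hJ'i : (AlgebraicIndependent.matroid K Ω).Indep J' := hTξ.coe_range
  have hJ's : J' ⊆ Set.range ξ := by
    rintro _ ⟨a, rfl⟩
    exact ⟨a, rfl⟩
  have hJ'c : J'.encard = M := by
    rw [← hJc, ← hbij.image_eq, hbij.injOn.encard_image, hJ', ← Set.image_univ,
      (hTξ.injective.injOn).encard_image, Set.encard_univ]
    rfl
  have hJ'f : J'.Finite := by
    rw [← Set.encard_lt_top_iff, hJ'c]
    exact ENat.natCast_lt_top M
  have hbasis : (AlgebraicIndependent.matroid K Ω).IsBasis J' (Set.range ξ) := by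
    refine hJ'i.isBasis_of_eRk_ge hJ'f hJ's ?_ (Set.subset_univ _)
    rw [hJ'i.eRk_eq_encard, hJ'c]
    exact hbd ξ hξV
  -- the value is algebraic
  have hmem : aeval ξ P ∈ Algebra.adjoin K (Set.range ξ) := by
    rw [Algebra.adjoin_range_eq_range_aeval]
    exact ⟨P, rfl⟩
  have halg : IsAlgebraic (Algebra.adjoin K J') (aeval ξ P) := by
    rw [AlgebraicIndependent.isAlgebraic_adjoin_iff_of_matroid_isBasis hbasis]
    exact isAlgebraic_algebraMap (A := Ω) (⟨aeval ξ P, hmem⟩ : Algebra.adjoin K (Set.range ξ))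
  obtain ⟨q, hq0, hq⟩ := halg.exists_nonzero_coeff_and_aeval_eq_zero
    (mem_nonZeroDivisors_of_ne_zero hPξ)
  have hle : Algebra.adjoin K J' ≤ Algebra.adjoin K (Set.range ξ) := Algebra.adjoin_mono hJ's
  have hD : Polynomial.aeval (aeval ξ P) q.divX ∈ Algebra.adjoin K (Set.range ξ) := by
    rw [Polynomial.aeval_eq_sum_range]
    refine Subalgebra.sum_mem _ fun i _ => ?_
    rw [Subalgebra.smul_def, smul_eq_mul]
    exact Subalgebra.mul_mem _ (hle (q.divX.coeff i).2) (Subalgebra.pow_mem _ hmem i)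
  rw [Algebra.adjoin_range_eq_range_aeval] at hD
  obtain ⟨D, hD⟩ := hD
  have hadj : Algebra.adjoin K J' = (aeval (R := K) (fun a : T => ξ a)).range :=
    Algebra.adjoin_range_eq_range_aeval K (fun a : T => ξ a)
  have hadj' : ∀ x ∈ Algebra.adjoin K J', x ∈ (aeval (R := K) (fun a : T => ξ a)).range := by
    intro x hx
    rw [← hadj]
    exact hx
  obtain ⟨Q, hQ⟩ := hadj' _ (q.coeff 0).2
  have hrel : aeval ξ (rename (Subtype.val : T → τ) Q + P * D) = 0 := by
    rw [map_add, map_mul, aeval_rename]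
    have e1 : aeval (ξ ∘ Subtype.val) Q = ((q.coeff 0 : Algebra.adjoin K J') : Ω) := hQ
    have e2 : aeval ξ D = Polynomial.aeval (aeval ξ P) q.divX := hD
    rw [e1, e2]
    have h5 := congrArg (Polynomial.aeval (aeval ξ P)) q.divX_mul_X_add
    rw [hq, map_add, map_mul, Polynomial.aeval_X, Polynomial.aeval_C] at h5
    have e3 : algebraMap (Algebra.adjoin K J') Ω (q.coeff 0) =
      ((q.coeff 0 : Algebra.adjoin K J') : Ω) := rfl
    rw [e3] at h5
    rw [← h5]
    ring
  have h6 := (hξ _).1 hrel v hv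
  rw [map_add, map_mul, hPv, zero_mul, add_zero, aeval_rename] at h6
  have hQ0 : Q = 0 := hTv.eq_zero_of_aeval_eq_zero Q h6
  rw [hQ0] at hQ
  apply hq0
  apply Subtype.ext
  rw [← hQ]
  exact map_zero _

end Pool.Agent.Y125.OD
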